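import Mathlib
import Pool.Agent.MP_042a8e_lc.Prim

/-!
Powers of words decide the well-quasi-order property of a scheme.
-/

set_option autoImplicit false

namespace Pool.Agent.MP_042a8e_lc.h9

variable {α : Type} {P : List (α × List α)}

theorem null_of {β r : List α} (h : Der P (β ++ r) β) : Der P r [] := by
  induction hn : β.length using Nat.strong_induction_on generalizing β r with
  | _ n ih =>
    obtain ⟨γ, δ, rfl, h1, h2⟩ := h.split
    rcases eq_or_ne δ [] with rfl | h3
    · exact h2
    · have := List.length_pos_iff.2 h3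
      exact h2.trans' (ih _ (by rw [← hn, List.length_append]; omega) h1 rfl)

/-- A word that derives a proper extension of itself gives a factor in MIXED. -/
theorem not_free {u v : List α} (hv : v ≠ []) (h : Der P u (u ++ v)) : ¬Free P (u ++ v) := by
  induction u using List.reverseRecOn generalizing v with
  | nil => exact absurd h.nil_eq hv
  | append_singleton u a ih =>
    obtain ⟨β, γ, h1, h2, h3⟩ := h.split
    rw [List.append_assoc] at h1
    have key : ∀ r, u = β ++ r → γ = r ++ ([a] ++ v) → ¬Free P (u ++ [a] ++ v) := by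
      rintro r rfl rfl hf
      exact hf (a :: v) ⟨β ++ r, [], by simp⟩
        ⟨a, v, hv, h3.trans' ((null_of h2).append (Der.refl' _)), Or.inl rfl⟩
    rcases List.append_eq_append_iff.1 h1 with ⟨r, rfl, h4⟩ | ⟨r, h4, h5⟩
    · rcases eq_or_ne r [] with rfl | h5
      · exact key [] (by simp) (by simpa using h4.symm)
      · exact fun hf => ih h5 h2 (hf.sub_word ⟨[], γ, by simp [← h1]⟩)
    · exact key r h4 h5

/-- Deleting letters that derive the empty word. -/
inductive Del (P : List (α × List α)) : List α → List α → Prop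
  | nil : Del P [] []
  | keep (a : α) {x y : List α} : Del P x y → Del P (a :: x) (a :: y)
  | drop {a : α} {x y : List α} : Der P [a] [] → Del P x y → Del P (a :: x) y

theorem Del.refl (x : List α) : Del P x x := by
  induction x with
  | nil => exact .nil
  | cons a x ih => exact ih.keep a

theorem Del.der {x y : List α} (h : Del P x y) : Der P x y := by
  induction h with
  | nil => exact Der.refl' _
  | keep a _ ih => exact ih.cons' a
  | drop h _ ih => exact h.cons ih

theorem Del.sublist {x y : List α} (h : Del P x y) : y.Sublist x := by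
  induction h with
  | nil => exact .slnil
  | keep a _ ih => exact ih.cons_cons a
  | drop _ _ ih => exact ih.cons _

theorem Del.append {x y x' y' : List α} (h : Del P x y) (h' : Del P x' y') :
    Del P (x ++ x') (y ++ y') := by
  induction h with
  | nil => exact h'
  | keep a _ ih => exact ih.keep a
  | drop h _ ih => exact ih.drop h

theorem Del.split {x x' z : List α} (h : Del P (x ++ x') z) :
    ∃ y y', z = y ++ y' ∧ Del P x y ∧ Del P x' y' := by
  induction x generalizing z with
  | nil => exact ⟨[], z, rfl, .nil, h⟩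
  | cons a x ih =>
    cases h with
    | keep _ h =>
      obtain ⟨y, y', rfl, h1, h2⟩ := ih h
      exact ⟨a :: y, y', rfl, h1.keep a, h2⟩
    | drop h0 h =>
      obtain ⟨y, y', rfl, h1, h2⟩ := ih h
      exact ⟨y, y', rfl, h1.drop h0, h2⟩

open Classical in
/-- The scheme without erasing productions. -/
noncomputable def prp (P : List (α × List α)) : List (α × List α) :=
  P.flatMap fun p => (p.2.sublists.filter fun v => v ≠ [] ∧ Der P [p.1] v).map fun v => (p.1, v)

theorem mem_prp {a : α} {v : List α} :
    (a, v) ∈ prp P ↔ (∃ w, (a, w) ∈ P ∧ v.Sublist w) ∧ v ≠ [] ∧ Der P [a] v := by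
  simp only [prp, List.mem_flatMap, List.mem_map, List.mem_filter, List.mem_sublists,
    decide_eq_true_eq, Prod.mk.injEq, Prod.exists]
  constructor
  · rintro ⟨b, w, h1, u, ⟨h2, h3⟩, rfl, rfl⟩
    exact ⟨⟨w, h1, h2⟩, h3⟩
  · rintro ⟨⟨w, h1, h2⟩, h3⟩
    exact ⟨a, w, h1, v, ⟨h2, h3⟩, rfl, rfl⟩

theorem der_of_prp {x y : List α} (h : Der (prp P) x y) : Der P x y := by
  induction h with
  | refl => exact Der.refl' _
  | tail _ hs ih =>
    obtain ⟨x₁, x₂, a, v, hp, rfl, rfl⟩ := hs
    exact ih.trans' ((mem_prp.1 hp).2.2.ctx x₁ x₂)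

theorem prp_of_der {x y z : List α} (h : Der P x y) (hz : Del P y z) :
    ∃ x', Del P x x' ∧ Der (prp P) x' z := by
  induction h generalizing z with
  | refl => exact ⟨z, hz, Der.refl' _⟩
  | tail _ hs ih =>
    obtain ⟨x₁, x₂, a, v, hp, rfl, rfl⟩ := hs
    obtain ⟨_, y₂, rfl, h1, h2⟩ := hz.split
    obtain ⟨y₁, v', rfl, h3, h4⟩ := h1.split
    have h5 := (Der.rule hp).trans' h4.der
    rcases eq_or_ne v' [] with rfl | h6
    · exact ih ((h3.append (Del.nil.drop h5)).append h2)
    · obtain ⟨x', h7, h8⟩ := ih ((h3.append (Del.refl [a])).append h2)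
      exact ⟨x', h7, h8.trans' ((Der.rule (mem_prp.2 ⟨⟨v, hp, h4.sublist⟩, h6, h5⟩)).ctx y₁ y₂)⟩

theorem mixed_prp {f : List α} : Mixed (prp P) f ↔ Mixed P f := by
  refine exists_congr fun a => exists_congr fun s => and_congr_right fun _ =>
    and_congr_left fun hf => ⟨der_of_prp, fun h => ?_⟩
  obtain ⟨x, h1, h2⟩ := prp_of_der h (Del.refl f)
  rcases List.sublist_singleton.1 h1.sublist with rfl | rfl
  · rcases hf with rfl | rfl <;> simpa using h2.nil_eq
  · exact h2

/-- The dichotomy for all schemes. -/
theorem unav_or_per' [Finite α] (P : List (α × List α)) : Unav P ∨ Per P := by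
  have := unav_or_per (P := prp P) fun p hp => (mem_prp.1 hp).2.1
  simpa only [Unav, Per, Free, mixed_prp] using this

theorem pow_seg {X : ℕ} {y : ℕ → α} (h : ∀ t, y (t + X) = y t) (k : ℕ) :
    (List.replicate k (seg y 0 X)).flatten = seg y 0 (k * X) := by
  have hm : ∀ a i, y (a * X + i) = y (0 + i) := by
    intro a i
    induction a with
    | zero => simp
    | succ a ih => rw [Nat.succ_mul, add_right_comm, h, ih]
  induction k with
  | zero => simp
  | succ k ih =>
    rw [List.replicate_succ', List.flatten_append, ih, Nat.succ_mul,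
      ← seg_append y (Nat.zero_le _) (Nat.le_add_right _ X), seg_congr' fun i _ => hm k i]
    simp

theorem wqo_iff [Finite α] (P : List (α × List α)) : WellQuasiOrdered (Der P) ↔
    ∀ w : List α, w ≠ [] → ∃ k l, k < l ∧
      Der P (List.replicate k w).flatten (List.replicate l w).flatten := by
  refine ⟨fun h w _ => h fun k => (List.replicate k w).flatten, fun h => ?_⟩
  rcases unav_or_per' P with h1 | ⟨X, hX, y, h1, h2⟩
  · exact wqo_of_dual (dual_unavoidable h1)
  obtain ⟨k, l, h3, h4⟩ := h (seg y 0 X) (List.length_pos_iff.1 (by simpa using hX))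
  have h5 : k * X < l * X := Nat.mul_lt_mul_of_pos_right h3 hX
  rw [pow_seg h1, pow_seg h1, ← seg_append y (Nat.zero_le _) h5.le] at h4
  refine absurd (fun f hf hm => ?_) (not_free (List.length_pos_iff.1 (by simpa using h5)) h4)
  rw [seg_append y (Nat.zero_le _) h5.le] at hf
  obtain ⟨p, -, h6⟩ := infix_seg hf
  exact h2 _ _ (h6 ▸ hm)

end Pool.Agent.MP_042a8e_lc.h9
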